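import Pool.Agent.helper17.RX.Spec

/-!
# Row rx:VSX, project RX (MP_f42afa_pr): a random set with decoupling and rectangles, explicit constants
-/

set_option autoImplicit false

namespace TP.TW

open DP MeasureTheory Finset

private theorem VSX_prob : IsProbabilityMeasure P1 := by
  unfold P1
  infer_instance

private theorem VSX_nonneg (F : Set (V → Bool)) : 0 ≤ Pr F := measureReal_nonneg

private theorem VSX_mono {F G : Set (V → Bool)} (h : F ⊆ G) : Pr F ≤ Pr G := by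
  have := VSX_prob
  exact measureReal_mono h

private theorem VSX_univ : Pr (Set.univ : Set (V → Bool)) = 1 := by
  have := VSX_prob
  unfold Pr
  exact probReal_univ

private theorem VSX_biUnion {κ : Type} (s : Finset κ) (F : κ → Set (V → Bool)) (G : Set (V → Bool))
    (h : ∀ β ∈ G, ∃ i ∈ s, β ∈ F i) : Pr G ≤ ∑ i ∈ s, Pr (F i) := by
  have := VSX_prob
  refine (VSX_mono (G := ⋃ i ∈ s, F i) ?_).trans (measureReal_biUnion_finset_le s F)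
  intro β hβ
  obtain ⟨i, hi, h'⟩ := h β hβ
  exact Set.mem_iUnion₂.2 ⟨i, hi, h'⟩

/-- The shifted coins. -/
private def VSX_sh (τ : V) (β : V → Bool) : V → Bool := fun v => β (v.1 + τ.1, v.2 + τ.2)

/-- The difference. -/
private def VSX_dv (z : V) (τ : V) : V := (z.1 - τ.1, z.2 - τ.2)

/-- The event of the crossing depends on finitely many coins. -/
private theorem VSX_CD (o k : Bool) (Λ : Finset V) (S : (V → Bool) → Finset V)
    (hT : ∀ β β' : V → Bool, (∀ v ∈ Λ, β v = β' v) → S β = S β') (a b d e : ℤ) :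
    CD {β | crs o (col β) k (til (S β)) a b d e} (Λ ∪ rf a b d e) := by
  intro β β' h
  have h1 : S β = S β' := hT β β' fun v hv => h v (Finset.mem_union_left _ hv)
  have h2 : ∀ v ∈ rect a b d e, col β v = col β' v := by
    intro v hv
    refine h (br v) (Finset.mem_union_right _ ?_)
    unfold rf
    refine Finset.mem_image.2 ⟨v, ?_, rfl⟩
    exact Finset.mem_product.2 ⟨Finset.mem_Icc.2 ⟨hv.1, hv.2.1⟩, Finset.mem_Icc.2 ⟨hv.2.2.1, hv.2.2.2⟩⟩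
  have h3 : ∀ S : Set V, crs o (col β) k S a b d e ↔ crs o (col β') k S a b d e := by
    intro S
    unfold crs
    refine exists_congr fun u => exists_congr fun v => and_congr Iff.rfl ?_
    exact Conn.congr fun w hw => h2 w hw.1
  show crs o (col β) k (til (S β)) a b d e ↔ crs o (col β') k (til (S β')) a b d e
  rw [h1]
  exact h3 _

private theorem VSX_nr (S : Finset V) (a b d e : ℤ) (t : ℕ) (v : V) :
    v ∈ nr S a b d e t ↔ v ∈ S ∧ (a - t ≤ v.1 ∧ v.1 ≤ b + t ∧ d - t ≤ v.2 ∧ v.2 ≤ e + t) := by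
  unfold nr
  exact Finset.mem_filter

/-- The weight of the box. -/
private theorem VSX_box (Ω : Finset V) (w : V → ℝ) (hw0 : ∀ v, 0 ≤ w v) (hw1 : ∀ v ∉ Ω, w v = 0) (a b d e : ℤ) (t : ℕ) :
    ∑ v ∈ Icc (a - t) (b + t) ×ˢ Icc (d - t) (e + t), w v ≤ ∑ v ∈ nr Ω a b d e t, w v := by
  have h1 : ∀ v ∈ Icc (a - t) (b + t) ×ˢ Icc (d - t) (e + t), w v = if v ∈ Ω then w v else 0 := by
    intro v _
    by_cases h : v ∈ Ω
    · rw [if_pos h]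
    · rw [if_neg h, hw1 v h]
  rw [Finset.sum_congr rfl h1, ← Finset.sum_filter]
  refine Finset.sum_le_sum_of_subset_of_nonneg ?_ (fun v _ _ => hw0 v)
  intro v hv
  obtain ⟨hv1, hv2⟩ := Finset.mem_filter.1 hv
  rw [Finset.mem_product, Finset.mem_Icc, Finset.mem_Icc] at hv1
  exact (VSX_nr _ _ _ _ _ _ _).2 ⟨hv2, hv1.1.1, hv1.1.2, hv1.2.1, hv1.2.2⟩

private theorem VSX_core (shi : SHI_stmt) (shp : SHP_stmt) (plx : PLX_stmt) (R : ℕ)
    (C0 : ℝ) (o k : Bool)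
    (S : (V → Bool) → Finset V) (Ω : Finset V) (w : V → ℝ) (K : ℝ) (hRS : RS S Ω w R K)
    (a b d e a' b' d' e' : ℤ) (s t : ℕ)
    (hm : ∀ (c : V → Bool) (W : Set V) (i j : ℤ), 0 ≤ i → i ≤ s → 0 ≤ j → j ≤ s →
      crs o c k W (a + 2 * i) (b + 2 * i) (d + 2 * j) (e + 2 * j) → crs o c k W a' b' d' e')
    (hr : ∀ z ∈ rf a' b' d' e', ∀ i j : ℤ, 0 ≤ i → i ≤ s → 0 ≤ j → j ≤ s →
      a - t ≤ z.1 - 2 * i ∧ z.1 - 2 * i ≤ b + t ∧ d - t ≤ z.2 - 2 * j ∧ z.2 - 2 * j ≤ e + t)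
    (Z : (V → Bool) → Finset V) (hZ1 : ∀ β, Z β ⊆ rf a' b' d' e') (hZ2 : ∀ z, CD {β | z ∈ Z β} (rf a' b' d' e'))
    (hZ3 : ∀ (β : V → Bool) (S : Finset V), crs o (col β) k (til S) a' b' d' e' → ∃ z ∈ Z β, z ∈ S)
    (hZ4 : ∑ z ∈ rf a' b' d' e', Pr {β | z ∈ Z β} ≤ C0) :
    ((s : ℝ) + 1) ^ 2 * Pr {β | crs o (col β) k (til (S β)) a b d e} ≤
      K * (∑ v ∈ nr Ω a b d e t, w v) * ((C0 + 1) * ((2 * R + 3) *
        (Real.log (#(rf a' b' d' e') + 3) + Real.log (((s : ℝ) + 1) ^ 2 + #(rf a' b' d' e') + 3))) ^ R) := by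
  obtain ⟨-, hSΩ, ⟨Λ₀, hΛ₀⟩, hw0, hw1, hK, hdec⟩ := hRS
  obtain ⟨P, hP⟩ : ∃ P, P = Pr {β | crs o (col β) k (til (S β)) a b d e} := ⟨_, rfl⟩
  obtain ⟨U, hU⟩ : ∃ U, U = rf a' b' d' e' := ⟨_, rfl⟩
  obtain ⟨W, hW⟩ : ∃ W, W = ∑ v ∈ nr Ω a b d e t, w v := ⟨_, rfl⟩
  obtain ⟨p, hp⟩ : ∃ p : V → ℝ, p = fun z => Pr {β | z ∈ Z β} := ⟨_, rfl⟩
  rw [← hP, ← hW]
  rw [← hU] at hr hZ1 hZ2 hZ4 ⊢
  have hpz : ∀ z, Pr {β | z ∈ Z β} = p z := fun z => by rw [hp]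
  have hp0 : ∀ z, 0 ≤ p z := fun z => by rw [← hpz]; exact VSX_nonneg _
  have hp1 : ∀ z, p z ≤ 1 := fun z => by
    rw [← hpz, ← VSX_univ]
    exact VSX_mono (Set.subset_univ _)
  have hZ4' : ∑ z ∈ U, p z ≤ C0 := by
    refine le_trans (le_of_eq (Finset.sum_congr rfl fun z _ => (hpz z).symm)) hZ4
  obtain ⟨g, hg⟩ : ∃ g : ℕ × ℕ → V, g = fun x => (2 * (x.1 : ℤ), 2 * (x.2 : ℤ)) := ⟨_, rfl⟩
  have hgi : Function.Injective g := by
    rintro ⟨x, y⟩ ⟨z, w⟩ h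
    rw [hg] at h
    simp only [Prod.mk.injEq] at h ⊢
    omega
  obtain ⟨T, hTd⟩ : ∃ T : Finset V, T = (range (s + 1) ×ˢ range (s + 1)).image g := ⟨_, rfl⟩
  have hTc : #T = (s + 1) ^ 2 := by
    rw [hTd, Finset.card_image_of_injective _ hgi, Finset.card_product, Finset.card_range, sq]
  have hTm : ∀ τ ∈ T, ∃ i j : ℤ, 0 ≤ i ∧ i ≤ s ∧ 0 ≤ j ∧ j ≤ s ∧ τ = (2 * i, 2 * j) := by
    intro τ hτ
    rw [hTd] at hτ
    obtain ⟨⟨x, y⟩, hx, rfl⟩ := Finset.mem_image.1 hτ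
    rw [Finset.mem_product, Finset.mem_range, Finset.mem_range] at hx
    exact ⟨x, y, by omega, by omega, by omega, by omega, by rw [hg]⟩
  -- one translate
  have h1 : ∀ τ ∈ T, P ≤ ∑ z ∈ U, Pr ({β | z ∈ Z β} ∩ {β | VSX_dv z τ ∈ S (VSX_sh τ β)}) := by
    intro τ hτ
    have h2 := shp _ _ (VSX_CD o k Λ₀ S hΛ₀ a b d e) τ.1 τ.2
    rw [hP, ← h2]
    refine VSX_biUnion U (fun z => {β | z ∈ Z β} ∩ {β | VSX_dv z τ ∈ S (VSX_sh τ β)}) _ ?_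
    intro β hβ
    obtain ⟨i, j, hi0, hi, hj0, hj, rfl⟩ := hTm τ hτ
    have h3 : crs o (col (VSX_sh (2 * i, 2 * j) β)) k (til (S (VSX_sh (2 * i, 2 * j) β))) a b d e := hβ
    have h4 := (shi o k β (S (VSX_sh (2 * i, 2 * j) β)) a b d e i j).1 h3
    have h5 := hm _ _ i j hi0 hi hj0 hj h4
    obtain ⟨z, hz1, hz2⟩ := hZ3 β _ h5
    refine ⟨z, hZ1 β hz1, hz1, ?_⟩
    unfold shf at hz2
    obtain ⟨v, hv1, hv2⟩ := Finset.mem_image.1 hz2
    have h6 : VSX_dv z (2 * i, 2 * j) = v := by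
      rw [← hv2]
      unfold VSX_dv
      ext
      · show v.1 + 2 * i - 2 * i = v.1
        ring
      · show v.2 + 2 * j - 2 * j = v.2
        ring
    show VSX_dv z (2 * i, 2 * j) ∈ S (VSX_sh (2 * i, 2 * j) β)
    rw [h6]
    exact hv1
  have h2 : ((s : ℝ) + 1) ^ 2 * P ≤ ∑ τ ∈ T, ∑ z ∈ U, Pr ({β | z ∈ Z β} ∩ {β | VSX_dv z τ ∈ S (VSX_sh τ β)}) := by
    have h3 := Finset.sum_le_sum h1
    rw [Finset.sum_const, hTc, nsmul_eq_mul] at h3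
    push_cast at h3
    exact h3
  rw [Finset.sum_comm] at h2
  obtain ⟨ℓ, hℓ⟩ : ∃ ℓ, ℓ = Real.log (((s : ℝ) + 1) ^ 2 + #U + 3) := ⟨_, rfl⟩
  have hUc : (0 : ℝ) ≤ #U := Nat.cast_nonneg _
  have hℓ0 : 0 ≤ ℓ := by
    rw [hℓ]
    refine Real.log_nonneg ?_
    have : (0 : ℝ) ≤ ((s : ℝ) + 1) ^ 2 := sq_nonneg _
    linarith
  have hW0 : 0 ≤ W := by
    rw [hW]
    exact Finset.sum_nonneg fun v _ => hw0 v
  have hlogp : ∀ z, 0 ≤ Real.log (1 / p z) := by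
    intro z
    rcases (hp0 z).eq_or_lt with h | h
    · rw [← h, div_zero, Real.log_zero]
    · exact Real.log_nonneg (by rw [le_div_iff₀ h]; linarith [hp1 z])
  have h3 : ∀ z ∈ U, ∑ τ ∈ T, Pr ({β | z ∈ Z β} ∩ {β | VSX_dv z τ ∈ S (VSX_sh τ β)}) ≤
        K * W * (p z * (Real.log (1 / p z) + ℓ) ^ R) := by
    intro z hz
    have h4 := hdec T (Icc (a - t) (b + t) ×ˢ Icc (d - t) (e + t)) U z {β | z ∈ Z β} (hZ2 z) (by
      intro v hv τ hτ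
      have hv' : v ∈ U := by
        rcases Finset.mem_insert.1 hv with h | h
        · rw [h]
          exact hz
        · exact h
      obtain ⟨i, j, hi0, hi, hj0, hj, rfl⟩ := hTm τ hτ
      have h5 := hr v hv' i j hi0 hi hj0 hj
      rw [Finset.mem_product, Finset.mem_Icc, Finset.mem_Icc]
      exact ⟨⟨h5.1, h5.2.1⟩, h5.2.2.1, h5.2.2.2⟩)
    have h5 := VSX_box Ω w hw0 hw1 a b d e t
    rw [← hW] at h5
    have h6 : ((#T : ℕ) : ℝ) = ((s : ℝ) + 1) ^ 2 := by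
      rw [hTc]
      push_cast
      ring
    rw [hpz, h6, ← hℓ] at h4
    refine h4.trans ?_
    have h7 : 0 ≤ K * p z * (Real.log (1 / p z) + ℓ) ^ R :=
      mul_nonneg (mul_nonneg hK (hp0 z)) (pow_nonneg (add_nonneg (hlogp z) hℓ0) R)
    calc K * p z * (Real.log (1 / p z) + ℓ) ^ R * ∑ v ∈ Icc (a - t) (b + t) ×ˢ Icc (d - t) (e + t), w v
        ≤ K * p z * (Real.log (1 / p z) + ℓ) ^ R * W := mul_le_mul_of_nonneg_left h5 h7
      _ = K * W * (p z * (Real.log (1 / p z) + ℓ) ^ R) := by ring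
  have h4 := plx R U p ℓ hℓ0 (fun z _ => ⟨hp0 z, hp1 z⟩)
  have h5 : 0 ≤ Real.log ((#U : ℝ) + 3) := Real.log_nonneg (by linarith)
  have hR : (0 : ℝ) ≤ 2 * R + 3 := by positivity
  have h6 : (∑ z ∈ U, p z + 1) * ((2 * R + 3) * (Real.log (#U + 3) + ℓ)) ^ R ≤
      (C0 + 1) * ((2 * R + 3) * (Real.log (#U + 3) + ℓ)) ^ R :=
    mul_le_mul_of_nonneg_right (by linarith) (pow_nonneg (mul_nonneg hR (add_nonneg h5 hℓ0)) R)
  rw [← hℓ]
  calc ((s : ℝ) + 1) ^ 2 * P ≤ _ := h2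
    _ ≤ ∑ z ∈ U, K * W * (p z * (Real.log (1 / p z) + ℓ) ^ R) := Finset.sum_le_sum h3
    _ = K * W * ∑ z ∈ U, p z * (Real.log (1 / p z) + ℓ) ^ R := by rw [← Finset.mul_sum]
    _ ≤ K * W * ((C0 + 1) * ((2 * R + 3) * (Real.log (#U + 3) + ℓ)) ^ R) :=
        mul_le_mul_of_nonneg_left (h4.trans h6) (mul_nonneg hK hW0)

private theorem VSX_logt (t : ℕ) (ht : 1 ≤ t) : 1 ≤ Real.log ((t : ℝ) + 2) := by
  have h1 : (1 : ℝ) ≤ t := by exact_mod_cast ht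
  rw [Real.le_log_iff_exp_le (by linarith)]
  have := Real.exp_one_lt_d9
  linarith

/-- Small scales. -/
private theorem VSX_small (o k : Bool) (R : ℕ) (S : (V → Bool) → Finset V) (Ω : Finset V) (w : V → ℝ) (K : ℝ)
    (hRS : RS S Ω w R K) (a b d e : ℤ) (t : ℕ) (ht : 1 ≤ t) :
    Pr {β | crs o (col β) k (til (S β)) a b d e} ≤ K * 2 ^ R * ∑ v ∈ nr Ω a b d e t, w v := by
  obtain ⟨-, hSΩ, -, hw0, hw1, hK, hdec⟩ := hRS
  have hin : ∀ β : V → Bool, crs o (col β) k (til (S β)) a b d e → ∃ v ∈ nr Ω a b d e t, v ∈ S β := by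
    intro β hβ
    obtain ⟨u, v, -, h2⟩ := hβ
    have h3 : u ∈ rect a b d e ∩ til (S β) := h2.1.1
    have h4 : br u ∈ S β := h3.2
    have h5 := h3.1
    have h6 : a ≤ u.1 ∧ u.1 ≤ b ∧ d ≤ u.2 ∧ u.2 ≤ e := h5
    have h7 := br_fst u
    have h8 := br_snd u
    have h9 : a - t ≤ (br u).1 ∧ (br u).1 ≤ b + t ∧ d - t ≤ (br u).2 ∧ (br u).2 ≤ e + t := by omega
    exact ⟨br u, (VSX_nr _ _ _ _ _ _ _).2 ⟨hSΩ β h4, h9⟩, h4⟩
  have h1 : Pr {β | crs o (col β) k (til (S β)) a b d e} ≤ ∑ v ∈ nr Ω a b d e t, Pr {β | v ∈ S β} :=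
    VSX_biUnion _ (fun v => {β | v ∈ S β}) _ hin
  refine h1.trans ?_
  rw [Finset.mul_sum]
  refine Finset.sum_le_sum fun v _ => ?_
  have h2 := hdec {((0 : ℤ), (0 : ℤ))} {v} ∅ v Set.univ (fun _ _ _ => Iff.rfl) (by
    intro u hu τ hτ
    rw [Finset.mem_singleton] at hτ
    have hu' : u = v := by
      rcases Finset.mem_insert.1 hu with h | h
      · exact h
      · exact absurd h (Finset.notMem_empty _)
    rw [hτ, hu', Finset.mem_singleton]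
    ext
    · show v.1 - 0 = v.1
      ring
    · show v.2 - 0 = v.2
      ring)
  rw [Finset.sum_singleton, Finset.sum_singleton, VSX_univ, Finset.card_singleton, Finset.card_empty] at h2
  have h3 : Pr {β | v ∈ S β} ≤ Pr (Set.univ ∩ {β : V → Bool | (v.1 - (((0 : ℤ), (0 : ℤ)) : V).1, v.2 - (((0 : ℤ), (0 : ℤ)) : V).2) ∈
      S (fun u => β (u.1 + (((0 : ℤ), (0 : ℤ)) : V).1, u.2 + (((0 : ℤ), (0 : ℤ)) : V).2))}) := by
    refine VSX_mono fun β hβ => ⟨trivial, ?_⟩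
    have h4 : (fun u : V => β (u.1 + 0, u.2 + 0)) = β := by
      funext u
      rw [add_zero, add_zero]
    show (v.1 - 0, v.2 - 0) ∈ S (fun u : V => β (u.1 + 0, u.2 + 0))
    rw [h4, sub_zero, sub_zero]
    exact hβ
  refine h3.trans (h2.trans ?_)
  have h5 : Real.log (1 / 1) + Real.log (((1 : ℕ) : ℝ) + ((0 : ℕ) : ℝ) + 3) ≤ 2 := by
    rw [div_one, Real.log_one, zero_add]
    have h6 : (((1 : ℕ) : ℝ) + ((0 : ℕ) : ℝ) + 3) = 2 ^ 2 := by norm_num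
    rw [h6, Real.log_pow]
    have := Real.log_two_lt_d9
    push_cast
    linarith
  have h7 : 0 ≤ Real.log (1 / 1) + Real.log (((1 : ℕ) : ℝ) + ((0 : ℕ) : ℝ) + 3) := by
    rw [div_one, Real.log_one, zero_add]
    exact Real.log_nonneg (by norm_num)
  rw [mul_one]
  exact mul_le_mul_of_nonneg_right (mul_le_mul_of_nonneg_left (pow_le_pow_left₀ h7 h5 R) hK) (hw0 v)

private theorem VSX_smallfin (P W K L C lg : ℝ) (R t : ℕ) (ht : 1 ≤ t) (hL : (t : ℝ) ≤ L) (hC : L ^ 2 ≤ C) (hC2 : 2 ≤ C)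
    (hW : 0 ≤ W) (hK : 0 ≤ K) (hlg : 1 ≤ lg) (h : P ≤ K * 2 ^ R * W) :
    P ≤ C * K * (C * ((R + 1) * lg)) ^ R * W / (t : ℝ) ^ 2 := by
  have ht1 : (1 : ℝ) ≤ t := by exact_mod_cast ht
  have ht0 : (0 : ℝ) < (t : ℝ) ^ 2 := by positivity
  rw [le_div_iff₀ ht0]
  have h1 : (t : ℝ) ^ 2 ≤ L ^ 2 := pow_le_pow_left₀ (by linarith) hL 2
  have hR : (1 : ℝ) ≤ (R : ℝ) + 1 := by
    have : (0 : ℝ) ≤ R := Nat.cast_nonneg _
    linarith
  have h3 : (1 : ℝ) ≤ ((R : ℝ) + 1) * lg := one_le_mul_of_one_le_of_one_le hR hlg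
  have h2 : (2 : ℝ) ^ R ≤ (C * ((R + 1) * lg)) ^ R := by
    refine pow_le_pow_left₀ (by norm_num) ?_ R
    exact hC2.trans (le_mul_of_one_le_right (by linarith) h3)
  have hKW : 0 ≤ K * W := mul_nonneg hK hW
  have hC0 : 0 ≤ C := by linarith
  calc P * (t : ℝ) ^ 2 ≤ (K * 2 ^ R * W) * (t : ℝ) ^ 2 := mul_le_mul_of_nonneg_right h ht0.le
    _ = K * W * ((t : ℝ) ^ 2 * 2 ^ R) := by ring
    _ ≤ K * W * (L ^ 2 * 2 ^ R) := mul_le_mul_of_nonneg_left (mul_le_mul_of_nonneg_right h1 (by positivity)) hKW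
    _ ≤ K * W * (C * (C * ((R + 1) * lg)) ^ R) :=
        mul_le_mul_of_nonneg_left (mul_le_mul hC h2 (by positivity) hC0) hKW
    _ = C * K * (C * ((R + 1) * lg)) ^ R * W := by ring

private theorem VSX_fin (P W K C0 lg lu C : ℝ) (R s t : ℕ) (ht : 1 ≤ t) (hs : t ≤ 16 * (s + 1)) (hW : 0 ≤ W) (hK : 0 ≤ K)
    (hP : 0 ≤ P) (hC0 : 0 < C0) (hlg : 1 ≤ lg) (hlu0 : 0 ≤ lu) (hlu : lu ≤ 12 * lg)
    (hC : 256 * (C0 + 1) ≤ C) (hC36 : 36 ≤ C)
    (h : ((s : ℝ) + 1) ^ 2 * P ≤ K * W * ((C0 + 1) * ((2 * R + 3) * lu) ^ R)) :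
    P ≤ C * K * (C * ((R + 1) * lg)) ^ R * W / (t : ℝ) ^ 2 := by
  have ht1 : (1 : ℝ) ≤ t := by exact_mod_cast ht
  have ht0 : (0 : ℝ) < (t : ℝ) ^ 2 := by positivity
  rw [le_div_iff₀ ht0]
  have h1 : (t : ℝ) ≤ 16 * ((s : ℝ) + 1) := by exact_mod_cast hs
  have h2 : (t : ℝ) ^ 2 ≤ (16 * ((s : ℝ) + 1)) ^ 2 := pow_le_pow_left₀ (Nat.cast_nonneg _) h1 2
  have hKW : 0 ≤ K * W := mul_nonneg hK hW
  have hR0 : (0 : ℝ) ≤ R := Nat.cast_nonneg _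
  have hlg0 : (0 : ℝ) ≤ ((R : ℝ) + 1) * lg := mul_nonneg (by linarith) (by linarith)
  have h3 : ((2 * R + 3) * lu) ^ R ≤ (C * ((R + 1) * lg)) ^ R := by
    refine pow_le_pow_left₀ (mul_nonneg (by linarith) hlu0) ?_ R
    calc (2 * (R : ℝ) + 3) * lu ≤ (2 * (R : ℝ) + 3) * (12 * lg) := mul_le_mul_of_nonneg_left hlu (by linarith)
      _ ≤ (3 * ((R : ℝ) + 1)) * (12 * lg) := mul_le_mul_of_nonneg_right (by linarith) (by linarith)
      _ = 36 * (((R : ℝ) + 1) * lg) := by ring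
      _ ≤ C * (((R : ℝ) + 1) * lg) := mul_le_mul_of_nonneg_right hC36 hlg0
  have h5 : 0 ≤ (C * ((R + 1) * lg)) ^ R := pow_nonneg (mul_nonneg (by linarith) hlg0) R
  have h4 : (C0 + 1) * ((2 * R + 3) * lu) ^ R ≤ (C0 + 1) * (C * ((R + 1) * lg)) ^ R :=
    mul_le_mul_of_nonneg_left h3 (by linarith)
  calc P * (t : ℝ) ^ 2 ≤ P * (16 * ((s : ℝ) + 1)) ^ 2 := mul_le_mul_of_nonneg_left h2 hP
    _ = 256 * (((s : ℝ) + 1) ^ 2 * P) := by ring
    _ ≤ 256 * (K * W * ((C0 + 1) * (C * ((R + 1) * lg)) ^ R)) := by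
        have := mul_le_mul_of_nonneg_left h4 hKW
        linarith
    _ = 256 * (C0 + 1) * (K * W * (C * ((R + 1) * lg)) ^ R) := by ring
    _ ≤ C * (K * W * (C * ((R + 1) * lg)) ^ R) := mul_le_mul_of_nonneg_right hC (mul_nonneg hKW h5)
    _ = C * K * (C * ((R + 1) * lg)) ^ R * W := by ring

private theorem VSX_rf_card (a b d e : ℤ) (s t : ℕ) (ht : 1 ≤ t) (hs : s + 1 ≤ t)
    (h : (b + 1 - a).toNat * (e + 1 - d).toNat ≤ 24 * t ^ 2) :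
    Real.log ((#(rf a b d e) : ℝ) + 3) + Real.log (((s : ℝ) + 1) ^ 2 + #(rf a b d e) + 3) ≤ 12 * Real.log ((t : ℝ) + 2) := by
  have h1 : #(rf a b d e) ≤ 24 * t ^ 2 := by
    unfold rf
    refine Finset.card_image_le.trans ?_
    rw [Finset.card_product, Int.card_Icc, Int.card_Icc]
    exact h
  have h0 : (s + 1) ^ 2 ≤ t ^ 2 := Nat.pow_le_pow_left hs 2
  have h2 : (s + 1) ^ 2 + #(rf a b d e) + 3 ≤ (t + 2) ^ 6 := by
    have h3 : 81 ≤ (t + 2) ^ 4 := by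
      calc 81 = 3 ^ 4 := by norm_num
        _ ≤ (t + 2) ^ 4 := Nat.pow_le_pow_left (by omega) 4
    have h4 : t ^ 2 ≤ (t + 2) ^ 2 := Nat.pow_le_pow_left (by omega) 2
    have h5 : 1 ≤ t ^ 2 := Nat.one_le_pow _ _ (by omega)
    calc (s + 1) ^ 2 + #(rf a b d e) + 3 ≤ 81 * t ^ 2 := by omega
      _ ≤ (t + 2) ^ 4 * (t + 2) ^ 2 := Nat.mul_le_mul h3 h4
      _ = (t + 2) ^ 6 := by rw [← pow_add]
  have h3 : (((s : ℝ) + 1) ^ 2 + #(rf a b d e) + 3) ≤ ((t : ℝ) + 2) ^ 6 := by exact_mod_cast h2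
  have h4 : (0 : ℝ) ≤ #(rf a b d e) := Nat.cast_nonneg _
  have h6 : (0 : ℝ) ≤ ((s : ℝ) + 1) ^ 2 := sq_nonneg _
  have h5 := Real.log_le_log (by linarith) h3
  have h7 := Real.log_le_log (by linarith : (0 : ℝ) < (#(rf a b d e) : ℝ) + 3)
    (by linarith : (#(rf a b d e) : ℝ) + 3 ≤ ((s : ℝ) + 1) ^ 2 + #(rf a b d e) + 3)
  rw [Real.log_pow] at h5
  push_cast at h5
  linarith

private theorem VSX_lu0 (n x : ℝ) (hn : 0 ≤ n) (hx : 0 ≤ x) : 0 ≤ Real.log (n + 3) + Real.log (x + n + 3) :=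
  add_nonneg (Real.log_nonneg (by linarith)) (Real.log_nonneg (by linarith))

private theorem VSX_rf_mem {a b d e : ℤ} {z : V} (hz : z ∈ rf a b d e) :
    a - 1 ≤ z.1 ∧ z.1 ≤ b ∧ d ≤ z.2 ∧ z.2 ≤ e := by
  unfold rf at hz
  obtain ⟨v, hv, rfl⟩ := Finset.mem_image.1 hz
  rw [Finset.mem_product, Finset.mem_Icc, Finset.mem_Icc] at hv
  have h7 := br_fst v
  have h8 := br_snd v
  omega

theorem VSX (h1 : MNO_stmt) (h2 : SHI_stmt) (h3 : SHP_stmt) (h4 : ZCH_stmt) (h5 : PLX_stmt) : VSX_stmt := by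
  obtain ⟨C0, hC0, L, hL, hz⟩ := h4
  have hB : 0 ≤ (L : ℝ) ^ 2 := by positivity
  refine ⟨256 * (C0 + 1) + 36 + (L : ℝ) ^ 2, by linarith, ?_⟩
  intro R S Ω w K k t a d ht hRS
  have hlg := VSX_logt t ht
  have hw0 := hRS.2.2.2.1
  have hK := hRS.2.2.2.2.2.1
  by_cases htL : t < L
  · have htL' : (t : ℝ) ≤ (L : ℝ) := by exact_mod_cast htL.le
    constructor
    · exact VSX_smallfin _ _ K L _ _ R t ht htL' (by linarith) (by linarith)
        (Finset.sum_nonneg fun v _ => hw0 v) hK hlg (VSX_small true k R S Ω w K hRS _ _ _ _ t ht)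
    · exact VSX_smallfin _ _ K L _ _ R t ht htL' (by linarith) (by linarith)
        (Finset.sum_nonneg fun v _ => hw0 v) hK hlg (VSX_small false k R S Ω w K hRS _ _ _ _ t ht)
  have htL2 : L ≤ t := Nat.le_of_not_lt htL
  obtain ⟨s, hsd⟩ : ∃ s, s = t / 16 := ⟨_, rfl⟩
  have hs : 16 * s ≤ t := by rw [hsd]; exact Nat.mul_div_le t 16
  have hs2 : t ≤ 16 * (s + 1) := by omega
  have hs3 : s + 1 ≤ t := by omega
  constructor
  · obtain ⟨Z, hZ1, hZ2, hZ3, hZ4⟩ := hz true k a (a + 6 * t + 2 * s) (d + 2 * s) (d + 2 * t) (by omega) (by omega)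
      (fun _ => ⟨by omega, by omega⟩) (fun h => absurd h (by decide))
    refine VSX_fin _ _ K C0 _ _ _ R s t ht hs2 (Finset.sum_nonneg fun v _ => hw0 v) hK
      (VSX_nonneg _) hC0 hlg (VSX_lu0 _ _ (Nat.cast_nonneg _) (sq_nonneg _)) ?_ (by linarith) (by linarith)
      (VSX_core h2 h3 h5 R C0 true k S Ω w K hRS a (a + 6 * t) d (d + 2 * t) a (a + 6 * t + 2 * s) (d + 2 * s)
        (d + 2 * t) s t ?_ ?_ Z hZ1 hZ2 hZ3 hZ4)
    · refine VSX_rf_card _ _ _ _ s t ht hs3 ?_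
      have h1 : (a + 6 * t + 2 * s + 1 - a).toNat ≤ 8 * t := by omega
      have h2 : (d + 2 * t + 1 - (d + 2 * s)).toNat ≤ 3 * t := by omega
      calc _ ≤ (8 * t) * (3 * t) := Nat.mul_le_mul h1 h2
        _ = 24 * t ^ 2 := by ring
    · intro c W i j hi0 hi hj0 hj h
      exact (h1 c k W (a + 2 * i) (a + 6 * t + 2 * i) (d + 2 * j) (d + 2 * t + 2 * j)
        a (a + 6 * t + 2 * s) (d + 2 * s) (d + 2 * t)).1 (by omega) (by omega) (by omega) (by omega) (by omega) h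
    · intro z hz' i j hi0 hi hj0 hj
      have h1 := VSX_rf_mem hz'
      refine ⟨by omega, by omega, by omega, by omega⟩
  · obtain ⟨Z, hZ1, hZ2, hZ3, hZ4⟩ := hz false k (a + 2 * s) (a + 2 * t) d (d + 6 * t + 2 * s) (by omega) (by omega)
      (fun h => absurd h (by decide)) (fun _ => ⟨by omega, by omega⟩)
    refine VSX_fin _ _ K C0 _ _ _ R s t ht hs2 (Finset.sum_nonneg fun v _ => hw0 v) hK
      (VSX_nonneg _) hC0 hlg (VSX_lu0 _ _ (Nat.cast_nonneg _) (sq_nonneg _)) ?_ (by linarith) (by linarith)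
      (VSX_core h2 h3 h5 R C0 false k S Ω w K hRS a (a + 2 * t) d (d + 6 * t) (a + 2 * s) (a + 2 * t) d
        (d + 6 * t + 2 * s) s t ?_ ?_ Z hZ1 hZ2 hZ3 hZ4)
    · refine VSX_rf_card _ _ _ _ s t ht hs3 ?_
      have h1 : (a + 2 * t + 1 - (a + 2 * s)).toNat ≤ 3 * t := by omega
      have h2 : (d + 6 * t + 2 * s + 1 - d).toNat ≤ 8 * t := by omega
      calc _ ≤ (3 * t) * (8 * t) := Nat.mul_le_mul h1 h2
        _ = 24 * t ^ 2 := by ring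
    · intro c W i j hi0 hi hj0 hj h
      exact (h1 c k W (a + 2 * i) (a + 2 * t + 2 * i) (d + 2 * j) (d + 6 * t + 2 * j)
        (a + 2 * s) (a + 2 * t) d (d + 6 * t + 2 * s)).2 (by omega) (by omega) (by omega) (by omega) (by omega) h
    · intro z hz' i j hi0 hi hj0 hj
      have h1 := VSX_rf_mem hz'
      refine ⟨by omega, by omega, by omega, by omega⟩

end TP.TW
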